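import Mathlib
import Pool.Agent.Helper17.Berk.Tile

/-!
# Final squeeze (module B19 of MP_160e9b_an)

`mu R n φ = (d^n)⁻¹ ∑_{x ∈ RFix (R^n)} locDeg x * φ x`; from tile families for every `ε` to the
convergence on discs and then on continuous functions.
-/

open Polynomial Topology MeasureTheory Filter

set_option linter.dupNamespace false

namespace Pool.Agent.Helper59.Berk

open Pool.Agent.Helper17.Berk

universe u

variable {K : Type u} [NontriviallyNormedField K] [IsUltrametricDist K] [IsAlgClosed K]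

variable {R : RatMap K} {ρ : Measure (P1 K)}

/-- `d^{-n} ∑_{x ∈ RFix(R^n)} deg_{R^n}(x) φ(x)` (the same as `mu` of `Main`). -/
noncomputable def muS (R : RatMap K) (n : ℕ) (φ : P1 K → ℝ) : ℝ :=
  ((R.deg : ℝ) ^ n)⁻¹ * ∑ᶠ x ∈ (R.iter n).RFix, ((R.iter n).locDeg x : ℝ) * φ x

theorem two_le_deg_iter (hd : 2 ≤ R.deg) {n : ℕ} (hn : 1 ≤ n) : 2 ≤ (R.iter n).deg := by
  rw [RatMap.deg_iter]
  calc 2 ≤ R.deg := hd
    _ = R.deg ^ 1 := (pow_one _).symm
    _ ≤ R.deg ^ n := Nat.pow_le_pow_right (by omega) hn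

theorem muS_eq (hd : 2 ≤ R.deg) {n : ℕ} (hn : 1 ≤ n) (φ : P1 K → ℝ) :
    muS R n φ = ((R.deg : ℝ) ^ n)⁻¹ *
      ∑ x ∈ ((R.iter n).RFix_finite (two_le_deg_iter hd hn)).toFinset,
        ((R.iter n).locDeg x : ℝ) * φ x := by
  rw [muS, finsum_mem_eq_finite_toFinset_sum]

omit [IsUltrametricDist K] [IsAlgClosed K] in
theorem pow_pos' (hd : 2 ≤ R.deg) (n : ℕ) : 0 < (R.deg : ℝ) ^ n := by
  have : (0 : ℝ) < R.deg := by exact_mod_cast (by omega : 0 < R.deg)
  positivity

theorem muS_add (hd : 2 ≤ R.deg) {n : ℕ} (hn : 1 ≤ n) (φ ψ : P1 K → ℝ) :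
    muS R n (fun x => φ x + ψ x) = muS R n φ + muS R n ψ := by
  rw [muS_eq hd hn, muS_eq hd hn, muS_eq hd hn, ← mul_add, ← Finset.sum_add_distrib]
  congr 1
  exact Finset.sum_congr rfl fun x _ => by ring

theorem muS_smul (hd : 2 ≤ R.deg) {n : ℕ} (hn : 1 ≤ n) (c : ℝ) (φ : P1 K → ℝ) :
    muS R n (fun x => c * φ x) = c * muS R n φ := by
  rw [muS_eq hd hn, muS_eq hd hn, mul_left_comm c]
  congr 1
  rw [Finset.mul_sum]
  exact Finset.sum_congr rfl fun x _ => by ring

theorem muS_sum (hd : 2 ≤ R.deg) {n : ℕ} (hn : 1 ≤ n) {ι : Type*} (S : Finset ι)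
    (φ : ι → P1 K → ℝ) :
    muS R n (fun x => ∑ p ∈ S, φ p x) = ∑ p ∈ S, muS R n (φ p) := by
  simp only [muS_eq hd hn]
  rw [← Finset.mul_sum, Finset.sum_comm]
  congr 1
  exact Finset.sum_congr rfl fun x _ => by rw [Finset.mul_sum]

theorem muS_mono (hd : 2 ≤ R.deg) {n : ℕ} (hn : 1 ≤ n) {φ ψ : P1 K → ℝ}
    (h : ∀ x, φ x ≤ ψ x) : muS R n φ ≤ muS R n ψ := by
  rw [muS_eq hd hn, muS_eq hd hn]
  have h0 := (inv_pos.2 (pow_pos' hd n)).le
  refine mul_le_mul_of_nonneg_left (Finset.sum_le_sum fun x _ => ?_) h0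
  exact mul_le_mul_of_nonneg_left (h x) (Nat.cast_nonneg _)

theorem abs_muS_sub_le (hd : 2 ≤ R.deg) {n : ℕ} (hn : 1 ≤ n) {φ ψ : P1 K → ℝ} {ε : ℝ}
    (h : ∀ x, |φ x - ψ x| ≤ ε) :
    |muS R n φ - muS R n ψ| ≤ ε * muS R n (fun _ => 1) := by
  rw [abs_le]
  constructor
  · have h1 : muS R n ψ ≤ muS R n (fun x => φ x + ε * 1) :=
      muS_mono hd hn fun x => by have := (abs_le.1 (h x)).1; linarith
    rw [muS_add hd hn, muS_smul hd hn] at h1
    linarith
  · have h1 : muS R n φ ≤ muS R n (fun x => ψ x + ε * 1) :=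
      muS_mono hd hn fun x => by have := (abs_le.1 (h x)).2; linarith
    rw [muS_add hd hn, muS_smul hd hn] at h1
    linarith

open Classical in
/-- the finite sets of full fixed points in the tiles: lower bound for the mass of a union of
tiles, and upper bound for the total mass. -/
theorem tiles_bounds (h : Setup R ρ) {ε : ℝ} (hε : 0 < ε) (hT : TileFam R ρ ε) :
    ∃ (m : ℕ) (W : Fin m → Set (P1 K)) (lam : Fin m → ℝ),
      (∀ i j, i ≠ j → Disjoint (W i) (W j)) ∧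
      (∀ i, MeasurableSet (W i) ∧ DiscLike (W i) ∧ ρ.real (W i) ≤ ε ∧ lam i ≤ ρ.real (W i)) ∧
      1 - ε ≤ ∑ i, lam i ∧
      ∀ᶠ n : ℕ in atTop, muS R n (fun _ => 1) ≤ 1 + 4 * ε ∧
        ∀ (I : Finset (Fin m)) (B : Set (P1 K)), (∀ i ∈ I, W i ⊆ B) →
          ∑ i ∈ I, lam i - ε ≤ muS R n (fun x => if x ∈ B then 1 else 0) := by
  obtain ⟨m, W, lam, hdis, hW, hsum⟩ := hT
  refine ⟨m, W, lam, hdis, fun i => ⟨(hW i).1, (hW i).2.1, (hW i).2.2.1, (hW i).2.2.2.2⟩, hsum, ?_⟩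
  have hd := h.hd
  have hm : (0 : ℝ) < m + 1 := by positivity
  have hev : ∀ᶠ n : ℕ in atTop, ∀ i, ∃ F : Finset (P1 K),
      (∀ x ∈ F, x ∈ (R.iter n).RFix ∧ ¬ (R.iter n).NonFull x ∧ x ∈ W i) ∧
        (lam i - ε / (m + 1)) * (R.deg : ℝ) ^ n ≤
          ((∑ x ∈ F, (R.iter n).locDeg x : ℕ) : ℝ) := by
    rw [eventually_all]
    intro i
    exact (hW i).2.2.2.1 _ (div_pos hε hm)
  filter_upwards [hev, eventually_ge_atTop 1] with n hn hn1
  have hdn := two_le_deg_iter (R := R) hd hn1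
  choose F hF hFs using hn
  have hD := pow_pos' (R := R) hd n
  set A := ((R.iter n).RFix_finite hdn).toFinset with hA
  have hsub : ∀ i, F i ⊆ A := fun i x hx => by
    rw [hA, Set.Finite.mem_toFinset]; exact (hF i x hx).1
  have hdisF : ∀ i ∈ (Finset.univ : Finset (Fin m)), ∀ j ∈ (Finset.univ : Finset (Fin m)),
      i ≠ j → Disjoint (F i) (F j) := by
    intro i _ j _ hij
    rw [Finset.disjoint_left]
    intro x hx hx'
    exact Set.disjoint_left.1 (hdis i j hij) (hF i x hx).2.2 (hF j x hx').2.2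
  have hwt : ∀ i, ∀ x ∈ F i, (R.iter n).wt x = (R.iter n).locDeg x := by
    intro i x hx
    rw [RatMap.wt, if_neg (hF i x hx).2.1, Nat.sub_zero]
  have hterm : ∀ x : P1 K, 0 ≤ ((R.iter n).locDeg x : ℝ) := fun x => Nat.cast_nonneg _
  have hlow : ∀ I : Finset (Fin m), (∑ i ∈ I, lam i - ε) * (R.deg : ℝ) ^ n ≤
      ∑ i ∈ I, ∑ x ∈ F i, ((R.iter n).locDeg x : ℝ) := by
    intro I
    have h1 : ∑ i ∈ I, (lam i - ε / (m + 1)) * (R.deg : ℝ) ^ n ≤
        ∑ i ∈ I, ∑ x ∈ F i, ((R.iter n).locDeg x : ℝ) := by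
      refine Finset.sum_le_sum fun i _ => ?_
      have := hFs i
      push_cast at this
      exact this
    refine le_trans ?_ h1
    rw [← Finset.sum_mul, Finset.sum_sub_distrib, Finset.sum_const, nsmul_eq_mul]
    refine mul_le_mul_of_nonneg_right ?_ hD.le
    have h2 : (I.card : ℝ) ≤ m + 1 := by
      have : I.card ≤ m := by simpa using Finset.card_le_univ I
      have : (I.card : ℝ) ≤ m := by exact_mod_cast this
      linarith
    have h3 : (I.card : ℝ) * (ε / (m + 1)) ≤ ε := by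
      rw [mul_div_assoc', div_le_iff₀ hm]
      nlinarith
    linarith
  refine ⟨?_, ?_⟩
  · -- upper bound
    set U := Finset.univ.biUnion F with hU
    have hUA : U ⊆ A := by
      rw [hU]; exact Finset.biUnion_subset.2 fun i _ => hsub i
    have hw : ∑ x ∈ A, (R.iter n).wt x ≤ (R.iter n).deg :=
      (R.iter n).sum_wt_le hdn A fun x hx => by
        rw [hA, Set.Finite.mem_toFinset] at hx; exact hx
    have hw' : ∑ x ∈ A, ((R.iter n).wt x : ℝ) ≤ (R.deg : ℝ) ^ n := by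
      have : ((∑ x ∈ A, (R.iter n).wt x : ℕ) : ℝ) ≤ ((R.iter n).deg : ℝ) := by exact_mod_cast hw
      rw [RatMap.deg_iter] at this
      push_cast at this
      exact this
    have hUs : ∑ x ∈ U, ((R.iter n).wt x : ℝ) = ∑ i, ∑ x ∈ F i, ((R.iter n).locDeg x : ℝ) := by
      rw [hU, Finset.sum_biUnion hdisF]
      exact Finset.sum_congr rfl fun i _ => Finset.sum_congr rfl fun x hx => by rw [hwt i x hx]
    have hUl : ∑ x ∈ U, ((R.iter n).wt x : ℝ) = ∑ x ∈ U, ((R.iter n).locDeg x : ℝ) := by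
      refine Finset.sum_congr rfl fun x hx => ?_
      rw [hU, Finset.mem_biUnion] at hx
      obtain ⟨i, -, hi⟩ := hx
      rw [hwt i x hi]
    have h4 := hlow Finset.univ
    have h5 : (1 - 2 * ε) * (R.deg : ℝ) ^ n ≤ ∑ x ∈ U, ((R.iter n).wt x : ℝ) := by
      rw [hUs]
      refine le_trans (mul_le_mul_of_nonneg_right ?_ hD.le) h4
      linarith
    have h6 : ∑ x ∈ A \ U, ((R.iter n).locDeg x : ℝ) ≤ ∑ x ∈ A \ U, 2 * ((R.iter n).wt x : ℝ) := by
      refine Finset.sum_le_sum fun x hx => ?_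
      have hx' : x ∈ (R.iter n).RFix := by
        have := (Finset.mem_sdiff.1 hx).1
        rwa [hA, Set.Finite.mem_toFinset] at this
      exact_mod_cast ((R.iter n).one_le_wt hdn hx').2
    rw [← Finset.mul_sum] at h6
    have h7 : ∑ x ∈ A \ U, ((R.iter n).wt x : ℝ) + ∑ x ∈ U, ((R.iter n).wt x : ℝ) =
        ∑ x ∈ A, ((R.iter n).wt x : ℝ) := Finset.sum_sdiff hUA
    have h8 : ∑ x ∈ A \ U, ((R.iter n).locDeg x : ℝ) + ∑ x ∈ U, ((R.iter n).locDeg x : ℝ) =
        ∑ x ∈ A, ((R.iter n).locDeg x : ℝ) := Finset.sum_sdiff hUA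
    have h9 : ∑ x ∈ A, ((R.iter n).locDeg x : ℝ) ≤ (1 + 4 * ε) * (R.deg : ℝ) ^ n := by
      have h10 : 0 ≤ ∑ x ∈ A \ U, ((R.iter n).wt x : ℝ) :=
        Finset.sum_nonneg fun x _ => Nat.cast_nonneg _
      nlinarith
    rw [muS_eq hd hn1, inv_mul_le_iff₀ hD]
    simp only [mul_one]
    linarith
  · intro I B hIB
    rw [muS_eq hd hn1, le_inv_mul_iff₀ hD, mul_comm]
    refine (hlow I).trans ?_
    rw [← Finset.sum_biUnion (fun i hi j hj hij => hdisF i (Finset.mem_univ _) j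
      (Finset.mem_univ _) hij)]
    have hsubI : I.biUnion F ⊆ A := Finset.biUnion_subset.2 fun i _ => hsub i
    calc ∑ x ∈ I.biUnion F, ((R.iter n).locDeg x : ℝ)
        = ∑ x ∈ I.biUnion F, ((R.iter n).locDeg x : ℝ) * (if x ∈ B then 1 else 0) := by
          refine Finset.sum_congr rfl fun x hx => ?_
          rw [Finset.mem_biUnion] at hx
          obtain ⟨i, hi, hxi⟩ := hx
          rw [if_pos (hIB i hi (hF i x hxi).2.2), mul_one]
      _ ≤ ∑ x ∈ A, ((R.iter n).locDeg x : ℝ) * (if x ∈ B then 1 else 0) := by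
          refine Finset.sum_le_sum_of_subset_of_nonneg hsubI fun x _ _ => ?_
          exact mul_nonneg (hterm x) (by split_ifs <;> norm_num)

omit [IsAlgClosed K] in
open Classical in
/-- one set: both tiles inside `B` and tiles inside the complement. -/
theorem sum_inside_ge (h : Setup R ρ) {ε : ℝ} (hε : 0 < ε) {m : ℕ} {W : Fin m → Set (P1 K)}
    {lam : Fin m → ℝ} (hdis : ∀ i j, i ≠ j → Disjoint (W i) (W j))
    (hW : ∀ i, MeasurableSet (W i) ∧ ρ.real (W i) ≤ ε ∧ lam i ≤ ρ.real (W i))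
    (hsum : 1 - ε ≤ ∑ i, lam i) {B : Set (P1 K)} (hB : MeasurableSet B) (z : P1 K)
    (hz : ∀ i, z ∉ W i → W i ⊆ B ∨ Disjoint (W i) B) :
    ρ.real B - 2 * ε ≤ ∑ i ∈ Finset.univ.filter (fun i => W i ⊆ B), lam i := by
  have := h.prob
  have hsplit : ∑ i, lam i = ∑ i ∈ Finset.univ.filter (fun i => W i ⊆ B), lam i +
      ∑ i ∈ Finset.univ.filter (fun i => ¬ W i ⊆ B), lam i :=
    (Finset.sum_filter_add_sum_filter_not _ _ _).symm
  have hsplit2 : ∑ i ∈ Finset.univ.filter (fun i => ¬ W i ⊆ B), lam i =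
      ∑ i ∈ (Finset.univ.filter (fun i => ¬ W i ⊆ B)).filter (fun i => z ∈ W i), lam i +
      ∑ i ∈ (Finset.univ.filter (fun i => ¬ W i ⊆ B)).filter (fun i => ¬ z ∈ W i), lam i :=
    (Finset.sum_filter_add_sum_filter_not _ _ _).symm
  have h1 : ∑ i ∈ (Finset.univ.filter (fun i => ¬ W i ⊆ B)).filter (fun i => z ∈ W i), lam i
      ≤ ε := by
    set S := (Finset.univ.filter (fun i => ¬ W i ⊆ B)).filter (fun i => z ∈ W i) with hS
    have hcard : S.card ≤ 1 := by
      rw [Finset.card_le_one]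
      intro i hi j hj
      by_contra hij
      exact Set.disjoint_left.1 (hdis i j hij) (Finset.mem_filter.1 hi).2 (Finset.mem_filter.1 hj).2
    rcases Nat.lt_or_ge S.card 1 with h0 | h0
    · have : S = ∅ := Finset.card_eq_zero.1 (by omega)
      rw [this, Finset.sum_empty]; exact hε.le
    · obtain ⟨i, hi⟩ := Finset.card_eq_one.1 (le_antisymm hcard h0)
      rw [hi, Finset.sum_singleton]
      exact (hW i).2.2.trans (hW i).2.1
  have h2 : ∑ i ∈ (Finset.univ.filter (fun i => ¬ W i ⊆ B)).filter (fun i => ¬ z ∈ W i), lam i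
      ≤ ρ.real Bᶜ := by
    set S := (Finset.univ.filter (fun i => ¬ W i ⊆ B)).filter (fun i => ¬ z ∈ W i) with hS
    calc ∑ i ∈ S, lam i ≤ ∑ i ∈ S, ρ.real (W i) := Finset.sum_le_sum fun i _ => (hW i).2.2
      _ = ρ.real (⋃ i ∈ S, W i) := by
          rw [measureReal_biUnion_finset]
          · intro i _ j _ hij
            exact hdis i j hij
          · exact fun i _ => (hW i).1
      _ ≤ ρ.real Bᶜ := by
          refine measureReal_mono ?_
          refine Set.iUnion₂_subset fun i hi => ?_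
          have hi' := Finset.mem_filter.1 hi
          have hi'' := (Finset.mem_filter.1 hi'.1).2
          rcases hz i hi'.2 with h3 | h3
          · exact absurd h3 hi''
          · exact Set.subset_compl_iff_disjoint_right.2 h3
  have h3 : ρ.real Bᶜ = 1 - ρ.real B := by
    rw [measureReal_compl hB]
    simp
  linarith

open Classical in
theorem tendsto_set (h : Setup R ρ) (hT : ∀ ε : ℝ, 0 < ε → TileFam R ρ ε) {B : Set (P1 K)}
    (hB : MeasurableSet B) (z : P1 K)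
    (hz : ∀ W : Set (P1 K), DiscLike W → z ∉ W → W ⊆ B ∨ Disjoint W B) :
    Tendsto (fun n => muS R n (fun x => if x ∈ B then 1 else 0)) atTop (𝓝 (ρ.real B)) := by
  have := h.prob
  have hd := h.hd
  rw [Metric.tendsto_atTop']
  intro δ hδ
  have hε : 0 < δ / 8 := by positivity
  obtain ⟨m, W, lam, hdis, hW, hsum, hev⟩ := tiles_bounds h hε (hT _ hε)
  obtain ⟨N, hN⟩ := eventually_atTop.1 hev
  refine ⟨max N 1, fun n hn => ?_⟩
  have hn1 : 1 ≤ n := le_trans (le_max_right _ _) hn.le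
  obtain ⟨htot, hlow⟩ := hN n (le_trans (le_max_left _ _) hn.le)
  have hin := sum_inside_ge h hε hdis (fun i => ⟨(hW i).1, (hW i).2.2.1, (hW i).2.2.2⟩) hsum hB z
    (fun i => hz _ (hW i).2.1)
  have hout := sum_inside_ge h hε hdis (fun i => ⟨(hW i).1, (hW i).2.2.1, (hW i).2.2.2⟩) hsum
    hB.compl z (fun i hi => by
      rcases hz _ (hW i).2.1 hi with h3 | h3
      · right
        exact Set.disjoint_compl_right_iff_subset.2 h3
      · left
        exact Set.subset_compl_iff_disjoint_right.2 h3)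
  have e1 := hlow (Finset.univ.filter (fun i => W i ⊆ B)) B
    (fun i hi => (Finset.mem_filter.1 hi).2)
  have e2 := hlow (Finset.univ.filter (fun i => W i ⊆ Bᶜ)) Bᶜ
    (fun i hi => (Finset.mem_filter.1 hi).2)
  have e3 : muS R n (fun x => if x ∈ B then 1 else 0) +
      muS R n (fun x => @ite ℝ (x ∈ Bᶜ) (Classical.propDecidable _) 1 0) =
        muS R n (fun _ => 1) := by
    rw [← muS_add hd hn1]
    congr 1
    funext x
    by_cases hx : x ∈ B
    · rw [if_pos hx, if_neg (by simpa using hx), add_zero]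
    · rw [if_neg hx, if_pos (by simpa using hx), zero_add]
  have e4 : ρ.real Bᶜ = 1 - ρ.real B := by
    rw [measureReal_compl hB]
    simp
  rw [Real.dist_eq, abs_lt]
  constructor <;> linarith

open Classical in
theorem tendsto_univ (h : Setup R ρ) (hT : ∀ ε : ℝ, 0 < ε → TileFam R ρ ε) :
    Tendsto (fun n => muS R n (fun _ => 1)) atTop (𝓝 1) := by
  have := h.prob
  have h1 := tendsto_set h hT (B := Set.univ) MeasurableSet.univ OnePoint.infty
    (fun W _ _ => Or.inl (Set.subset_univ W))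
  simpa using h1

omit [IsAlgClosed K] in
theorem measurableSet_oD (e : K) (s : ℝ) : MeasurableSet (oD e s : Set (P1 K)) :=
  (isOpen_oD e s).measurableSet

omit [IsAlgClosed K] in
theorem measurableSet_cD (e : K) (s : ℝ) : MeasurableSet (cD e s : Set (P1 K)) :=
  (isClosed_cD e s).measurableSet

open Classical in
/-- convergence on discs. -/
theorem tendsto_disc (h : Setup R ρ) (hT : ∀ ε : ℝ, 0 < ε → TileFam R ρ ε) :
    (Tendsto (fun n => muS R n (fun _ => 1)) atTop (𝓝 1)) ∧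
    ∀ (e : K) (s : ℝ), 0 < s →
      Tendsto (fun n => muS R n (fun x => if x ∈ oD e s then 1 else 0)) atTop
          (𝓝 (ρ.real (oD e s))) ∧
        Tendsto (fun n => muS R n (fun x => if x ∈ cD e s then 1 else 0)) atTop
          (𝓝 (ρ.real (cD e s))) :=
  ⟨tendsto_univ h hT, fun e s hs =>
    ⟨tendsto_set h hT (measurableSet_oD e s) ((zeta e s : Berk K) : P1 K)
        (fun _ hW hz => (hW e s hs hz).1),
      tendsto_set h hT (measurableSet_cD e s) ((zeta e s : Berk K) : P1 K)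
        (fun _ hW hz => (hW e s hs hz).2)⟩⟩

open Classical in
/-- from discs to continuous functions. -/
theorem tendsto_of_step (h : Setup R ρ) (hT : ∀ ε : ℝ, 0 < ε → TileFam R ρ ε)
    (φ : C(P1 K, ℝ))
    (hstep : ∀ ε : ℝ, 0 < ε → ∃ (S : Finset (K × ℝ)) (c₀ : ℝ) (u v : K × ℝ → ℝ),
      (∀ p ∈ S, 0 < p.2) ∧
      ∀ x : P1 K, |φ x - (c₀ + ∑ p ∈ S, ((u p) * (if x ∈ oD p.1 p.2 then 1 else 0) +
        (v p) * (if x ∈ cD p.1 p.2 then 1 else 0)))| ≤ ε) :
    Tendsto (fun n => muS R n φ) atTop (𝓝 (∫ x, φ x ∂ρ)) := by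
  have := h.prob
  have hd := h.hd
  obtain ⟨hone, hdisc⟩ := tendsto_disc h hT
  rw [Metric.tendsto_atTop']
  intro δ hδ
  have hε : 0 < δ / 8 := by positivity
  obtain ⟨S, c₀, u, v, hS, happ⟩ := hstep _ hε
  set g : P1 K → ℝ := fun x => c₀ + ∑ p ∈ S, ((u p) * (if x ∈ oD p.1 p.2 then 1 else 0) +
        (v p) * (if x ∈ cD p.1 p.2 then 1 else 0)) with hg
  have hmu : ∀ n, 1 ≤ n → muS R n g = c₀ * muS R n (fun _ => 1) +
      ∑ p ∈ S, (u p * muS R n (fun x => if x ∈ oD p.1 p.2 then 1 else 0) +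
        v p * muS R n (fun x => if x ∈ cD p.1 p.2 then 1 else 0)) := by
    intro n hn
    have h1 : g = fun x => c₀ * 1 + ∑ p ∈ S, ((u p) * (if x ∈ oD p.1 p.2 then 1 else 0) +
        (v p) * (if x ∈ cD p.1 p.2 then 1 else 0)) := by
      funext x; simp [hg]
    rw [h1, muS_add hd hn, muS_smul hd hn, muS_sum hd hn]
    congr 1
    refine Finset.sum_congr rfl fun p _ => ?_
    rw [muS_add hd hn, muS_smul hd hn, muS_smul hd hn]
  have hlim : Tendsto (fun n => muS R n g) atTop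
      (𝓝 (c₀ * 1 + ∑ p ∈ S, (u p * ρ.real (oD p.1 p.2) + v p * ρ.real (cD p.1 p.2)))) := by
    have h2 : Tendsto (fun n => c₀ * muS R n (fun _ => 1) +
      ∑ p ∈ S, (u p * muS R n (fun x => if x ∈ oD p.1 p.2 then 1 else 0) +
        v p * muS R n (fun x => if x ∈ cD p.1 p.2 then 1 else 0))) atTop
        (𝓝 (c₀ * 1 + ∑ p ∈ S, (u p * ρ.real (oD p.1 p.2) + v p * ρ.real (cD p.1 p.2)))) := by
      refine (hone.const_mul c₀).add (tendsto_finsetSum _ fun p hp => ?_)
      exact ((hdisc p.1 p.2 (hS p hp)).1.const_mul _).add ((hdisc p.1 p.2 (hS p hp)).2.const_mul _)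
    refine h2.congr' ?_
    filter_upwards [eventually_ge_atTop 1] with n hn
    rw [hmu n hn]
  have hi1 : ∀ p : K × ℝ, Integrable (fun x : P1 K => if x ∈ oD p.1 p.2 then (1 : ℝ) else 0) ρ :=
    fun p => (integrable_const (1 : ℝ)).indicator (measurableSet_oD p.1 p.2)
  have hi2 : ∀ p : K × ℝ, Integrable (fun x : P1 K => if x ∈ cD p.1 p.2 then (1 : ℝ) else 0) ρ :=
    fun p => (integrable_const (1 : ℝ)).indicator (measurableSet_cD p.1 p.2)
  have hv1 : ∀ p : K × ℝ, ∫ x, (if x ∈ oD p.1 p.2 then (1 : ℝ) else 0) ∂ρ =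
      ρ.real (oD p.1 p.2) := fun p => by
    have := integral_indicator_one (μ := ρ) (measurableSet_oD p.1 p.2)
    simpa [Set.indicator_apply] using this
  have hv2 : ∀ p : K × ℝ, ∫ x, (if x ∈ cD p.1 p.2 then (1 : ℝ) else 0) ∂ρ =
      ρ.real (cD p.1 p.2) := fun p => by
    have := integral_indicator_one (μ := ρ) (measurableSet_cD p.1 p.2)
    simpa [Set.indicator_apply] using this
  have hgi : Integrable g ρ := by
    refine (integrable_const c₀).add (integrable_finsetSum _ fun p _ => ?_)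
    exact ((hi1 p).const_mul _).add ((hi2 p).const_mul _)
  have hgint : ∫ x, g x ∂ρ = c₀ * 1 + ∑ p ∈ S, (u p * ρ.real (oD p.1 p.2) +
      v p * ρ.real (cD p.1 p.2)) := by
    have e1 : ∫ x, g x ∂ρ = ∫ x, c₀ ∂ρ + ∫ x, (∑ p ∈ S,
        ((u p) * (if x ∈ oD p.1 p.2 then (1 : ℝ) else 0) +
        (v p) * (if x ∈ cD p.1 p.2 then (1 : ℝ) else 0))) ∂ρ :=
      integral_add (integrable_const c₀) (integrable_finsetSum _ fun p _ =>
        ((hi1 p).const_mul (u p)).add ((hi2 p).const_mul (v p)))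
    have e2 : ∫ x, (∑ p ∈ S, ((u p) * (if x ∈ oD p.1 p.2 then (1 : ℝ) else 0) +
        (v p) * (if x ∈ cD p.1 p.2 then (1 : ℝ) else 0))) ∂ρ =
        ∑ p ∈ S, ∫ x, ((u p) * (if x ∈ oD p.1 p.2 then (1 : ℝ) else 0) +
        (v p) * (if x ∈ cD p.1 p.2 then (1 : ℝ) else 0)) ∂ρ :=
      integral_finsetSum _ (fun p _ =>
        ((hi1 p).const_mul (u p)).add ((hi2 p).const_mul (v p)))
    rw [e1, e2]
    congr 1
    · simp
    · refine Finset.sum_congr rfl fun p _ => ?_
      rw [integral_add ((hi1 p).const_mul _) ((hi2 p).const_mul _), integral_const_mul,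
        integral_const_mul, hv1, hv2]
  have hφi : Integrable (fun x => φ x) ρ := by
    refine Integrable.of_bound φ.continuous.aestronglyMeasurable ‖φ‖ ?_
    exact Filter.Eventually.of_forall fun x => φ.norm_coe_le_norm x
  have hdiff : |∫ x, φ x ∂ρ - ∫ x, g x ∂ρ| ≤ δ / 8 := by
    rw [← integral_sub hφi hgi]
    have := norm_integral_le_of_norm_le_const (μ := ρ) (f := fun x => φ x - g x) (C := δ / 8)
      (Filter.Eventually.of_forall fun x => by rw [Real.norm_eq_abs]; exact happ x)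
    simpa using this
  rw [← hgint] at hlim
  obtain ⟨N1, hN1⟩ := Metric.tendsto_atTop'.1 hlim (δ / 8) hε
  obtain ⟨N2, hN2⟩ := Metric.tendsto_atTop'.1 hone 1 one_pos
  refine ⟨max (max N1 N2) 1, fun n hn => ?_⟩
  have hn1 : 1 ≤ n := le_trans (le_max_right _ _) hn.le
  have a1 := hN1 n (lt_of_le_of_lt (le_trans (le_max_left _ _) (le_max_left _ _)) hn)
  have a2 := hN2 n (lt_of_le_of_lt (le_trans (le_max_right _ _) (le_max_left _ _)) hn)
  have a3 := abs_muS_sub_le (R := R) hd hn1 (φ := φ) (ψ := g) happ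
  rw [Real.dist_eq] at a1 a2 ⊢
  have a4 : muS R n (fun _ => 1) ≤ 2 := by
    have := (abs_lt.1 a2).2
    linarith
  have a5 : |muS R n φ - muS R n g| ≤ δ / 4 := by
    refine a3.trans ?_
    nlinarith
  have b1 := abs_lt.1 a1
  have b2 := abs_le.1 hdiff
  have b3 := abs_le.1 a5
  rw [abs_lt]
  constructor <;> linarith [b1.1, b1.2, b2.1, b2.2, b3.1, b3.2]

end Pool.Agent.Helper59.Berk
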